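import Pool.Agent.Helper45.FG.St

/-! Project FG (MP_7221b2_al), module FEX (helper8). -/

set_option autoImplicit false

namespace Pool.Agent.Helper8.FG

open Pool.Agent.Helper45.FG
open scoped BigOperators

theorem hFEX (hFCH : StFCH) (hFIN : StFIN) : StFEX := by
  intro K hK I _ R d hd t i x hx
  obtain ⟨-, hint, -⟩ := hFIN I R d hd
  set S : Set ℝ := (K : Set ℝ) ∪ Set.range d with hS
  have hSi : ∀ s ∈ S, IsIntegral ℚ s ∧ ((minpoly ℚ s).map (algebraMap ℚ ℂ)).Splits := by
    intro s hs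
    refine ⟨?_, IsAlgClosed.splits _⟩
    rcases hs with hs | ⟨j, rfl⟩
    · have h1 : IsIntegral ℚ (⟨s, hs⟩ : K) := IsIntegral.of_finite ℚ _
      exact h1.map K.val
    · exact (hint j).tower_top
  have hKS : K ≤ IntermediateField.adjoin ℚ S := fun s hs =>
    IntermediateField.subset_adjoin ℚ S (Or.inl hs)
  let f : K →ₐ[ℚ] ℂ := ((IsScalarTower.toAlgHom ℚ ℝ ℂ).comp K.val).comp t.toAlgHom
  obtain ⟨φ, hφ⟩ := IntermediateField.exists_algHom_adjoin_of_splits hSi f hKS
  have hmem : ∀ j, d j ∈ IntermediateField.adjoin ℚ S := fun j =>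
    IntermediateField.subset_adjoin ℚ S (Or.inr ⟨j, rfl⟩)
  let χ : I → ℂ := fun j => φ ⟨d j, hmem j⟩
  have hχ : ∀ i j, χ i * χ j = ∑ k, (R.N i j k : ℂ) * χ k := by
    intro i j
    have h1 : (⟨d i, hmem i⟩ * ⟨d j, hmem j⟩ : IntermediateField.adjoin ℚ S) =
        ∑ k, (R.N i j k : IntermediateField.adjoin ℚ S) * ⟨d k, hmem k⟩ := by
      apply Subtype.ext
      push_cast
      exact hd.mul i j
    change φ _ * φ _ = ∑ k, (R.N i j k : ℂ) * φ _
    rw [← map_mul, h1, map_sum]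
    refine Finset.sum_congr rfl (fun k _ => ?_)
    rw [map_mul, map_natCast]
  have h2 : χ i = (((t x : K) : ℝ) : ℂ) := by
    have h3 := DFunLike.congr_fun hφ x
    have h4 : (⟨d i, hmem i⟩ : IntermediateField.adjoin ℚ S) =
        IntermediateField.inclusion hKS x := Subtype.ext hx.symm
    change φ _ = _
    rw [h4]
    exact h3
  have h5 := hFCH I R d hd χ hχ i
  rw [h2, Complex.norm_real, Real.norm_eq_abs, ← hx] at h5
  exact h5

end Pool.Agent.Helper8.FG
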